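import Pool.Agent.Helper611.Dep.Main3

open scoped BigOperators Kronecker ComplexOrder
open Matrix Helper611.Dep

namespace Pool.Agent.Results.MP_b746ed_mp.TwoThreeQubit

theorem result :
    (∀ (d : ℕ), 2 ≤ d → ∀ (q1 q2 : ℝ), 0 ≤ q1 → q1 ≤ 1 → 0 ≤ q2 → q2 ≤ 1 →
      ∀ (N : Matrix (Fin d × Fin d) (Fin d × Fin d) ℂ → ℝ), IsUINorm N →
      ∀ (ρ : Matrix (Fin d × Fin d) (Fin d × Fin d) ℂ), IsState ρ →
      ∀ (ψ1 ψ2 : Fin d → ℂ), IsUnitVec ψ1 → IsUnitVec ψ2 →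
        N (tensorMap (depol q1) (depol q2) ρ) ≤
          N (tensorMap (depol q1) (depol q2) (pureSt ψ1 ⊗ₖ pureSt ψ2))) ∧
    (∀ (d : ℕ), 2 ≤ d → ∀ (q1 q2 q3 : ℝ), 0 ≤ q1 → q1 ≤ 1 → 0 ≤ q2 → q2 ≤ 1 → 0 ≤ q3 → q3 ≤ 1 →
      (d = 2 ∨ q1 ≤ 1 / ((d : ℝ) + 1) ∨ q2 ≤ 1 / ((d : ℝ) + 1) ∨ q3 ≤ 1 / ((d : ℝ) + 1)) →
      ∀ (N : Matrix ((Fin d × Fin d) × Fin d) ((Fin d × Fin d) × Fin d) ℂ → ℝ), IsUINorm N →
      ∀ (ρ : Matrix ((Fin d × Fin d) × Fin d) ((Fin d × Fin d) × Fin d) ℂ), IsState ρ →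
      ∀ (ψ1 ψ2 ψ3 : Fin d → ℂ), IsUnitVec ψ1 → IsUnitVec ψ2 → IsUnitVec ψ3 →
        N (tensorMap (tensorMap (depol q1) (depol q2)) (depol q3) ρ) ≤
          N (tensorMap (tensorMap (depol q1) (depol q2)) (depol q3)
            ((pureSt ψ1 ⊗ₖ pureSt ψ2) ⊗ₖ pureSt ψ3))) := by
  refine ⟨?_, ?_⟩
  · intro d _ q1 q2 a b c e N hN ρ hρ ψ1 ψ2 h1 h2
    exact T2 N hN ρ hρ ψ1 ψ2 h1 h2 q1 q2 a b c e
  · intro d _ q1 q2 q3 a b c e f g hm N hN ρ hρ ψ1 ψ2 ψ3 h1 h2 h3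
    rcases hm with hm | hm
    · subst hm
      exact T3' N hN ρ hρ (blocks_qubit hρ.1 hρ.2) ψ1 ψ2 ψ3 h1 h2 h3 q1 q2 q3 a b c e f g
    · refine T3 N hN ρ hρ ψ1 ψ2 ψ3 h1 h2 h3 q1 q2 q3 a b c e f g ?_
      have hd : (0 : ℝ) < (d : ℝ) + 1 := by positivity
      simp only [Fintype.card_fin]
      rcases hm with hm | hm | hm
      · left; exact (le_div_iff₀ hd).mp hm
      · right; left; exact (le_div_iff₀ hd).mp hm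
      · right; right; exact (le_div_iff₀ hd).mp hm

end Pool.Agent.Results.MP_b746ed_mp.TwoThreeQubit
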